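import Pool.Agent.Run7.h670.MY.Fin
import Pool.Agent.Run7.h299.MY.DIR
import Pool.Agent.Run7.h834.MY.CS
import Pool.Agent.Run7.h631.MY.DBALL
import Pool.Agent.Run7.h631.MY.DCAKE
import Pool.Agent.Run7.h742.MY.D_STEP
import Pool.Agent.Run7.h491.MY.D_CS2
import Pool.Agent.Run7.h491.MY.D_RED
import Pool.Agent.Run7.h19.MY.DKK
import Pool.Agent.Run7.h865.MY.D_ROT
import Pool.Agent.Run7.h865.MY.D_PLANE
import Pool.Agent.Run7.h958.MY.N_BATH
import Pool.Agent.Run7.h216.MY.N_DIR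
import Pool.Agent.Run7.h459.MY.N_LINE
import Pool.Agent.Run7.h593.MY.Phase
import Pool.Agent.Run7.h376.MY.N_PIT
import Pool.Agent.Run7.h354.MY.N_NUM

/-!
# The March-Young bound for every number of particles in dimension `d ≥ 30 N²`

Problem MP_ae5e3b_mp.  For all `N ≥ 1`, `d ≥ 2` and every admissible `f` with `f^(1+2/d)` integrable
there are `N` orthonormal orbitals with density `N f` and
`N^(-1-2/d) T ≤ θ K_cl ∫ f^(1+2/d) + N^(-2/d) ∫ |∇√f|²`, `θ = N^(2-2/d) d |B₁|^(4/d) / π²`; and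
`θ` can be replaced by `1` for `d ≥ 30 N²`.

The space `V d` and the definition `IsSobolev` are in `Pool/Agent/Run7/h670/MY/Defs.lean`.
-/

set_option autoImplicit false

open MeasureTheory Set Filter Topology Real

namespace Pool.Agent.Results.MP_ae5e3b_mp.MarchYoungManyParticles

open Pool.Agent.Run7.h670.MY (V IsSobolev)

variable {d : ℕ}

/-- `f` is admissible: `f ≥ 0`, `∫ f = 1`, and `√f` is in `H¹(ℝ^d)` with weak gradient `G`. -/
structure IsAdmissible (f : V d → ℝ) (G : Fin d → V d → ℂ) : Prop where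
  nonneg : ∀ x, 0 ≤ f x
  integrable : Integrable f
  integral : ∫ x, f x = 1
  sobolev : IsSobolev (fun x => ((√(f x) : ℝ) : ℂ)) G

/-- `φ₁, ..., φ_N` in `H¹(ℝ^d)`, with weak gradients `g`, are orthonormal in `L²(ℝ^d)` and
`∑ |φ_n|² = ρ`. -/
structure IsOrb (ρ : V d → ℝ) {N : ℕ} (φ : Fin N → V d → ℂ) (g : Fin N → Fin d → V d → ℂ) :
    Prop where
  sobolev : ∀ n, IsSobolev (φ n) (g n)
  orthonormal : ∀ n m, ∫ x, star (φ n x) * φ m x = if n = m then (1 : ℂ) else 0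
  density : ∀ x, ∑ n, ‖φ n x‖ ^ 2 = ρ x

/-- The integral `∫ |g|²`. -/
noncomputable def energy (g : Fin d → V d → ℂ) : ℝ := ∑ i, ∫ z, ‖g i z‖ ^ 2

/-- The semiclassical constant `K_cl = (4π²d/(d+2)) |B₁|^{-2/d}`. -/
noncomputable def Kcl (d : ℕ) : ℝ :=
  4 * Real.pi ^ 2 * d / (d + 2) *
    (volume.real (Metric.ball (0 : V d) 1)) ^ (-(2 / (d:ℝ)))

/-- The factor `N^(2-2/d) d |B₁|^(4/d) / π²`. -/
noncomputable def theta (d N : ℕ) : ℝ :=
  (N : ℝ) ^ (2 - 2 / (d : ℝ)) * d *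
    (volume.real (Metric.ball (0 : V d) 1)) ^ (4 / (d : ℝ)) / π ^ 2

/-- The March-Young bound for `N` particles in `ℝ^d` with the constant `κ K_cl`: for every
admissible `f` with `f^(1+2/d)` integrable there are `N` orthonormal orbitals with density `N f`
and `N^(-1-2/d) T ≤ κ K_cl ∫ f^(1+2/d) + N^(-2/d) ∫ |∇√f|²`. -/
def Bound (d N : ℕ) (κ : ℝ) : Prop := ∀ (f : V d → ℝ) (G : Fin d → V d → ℂ), IsAdmissible f G →
  Integrable (fun x => f x ^ (1 + 2 / (d : ℝ))) →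
  ∃ (φ : Fin N → V d → ℂ) (g : Fin N → Fin d → V d → ℂ), IsOrb (fun x => N * f x) φ g ∧
    (N:ℝ) ^ (-1 - 2 / (d:ℝ)) * ∑ n, energy (g n) ≤
      κ * (Kcl d * ∫ x, f x ^ (1 + 2 / (d : ℝ))) + (N:ℝ) ^ (-(2 / (d:ℝ))) * energy G

/-- **The March-Young bound for every number of particles in high dimension.** For all `d ≥ 2` and
`N ≥ 1` the bound holds with the constant `θ(d, N) K_cl`, and for `d ≥ 30 N²` it holds with the
constant `K_cl`. -/
theorem result : (∀ d N : ℕ, 2 ≤ d → 1 ≤ N → Bound d N (theta d N)) ∧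
    ∀ d N : ℕ, 1 ≤ N → 30 * N ^ 2 ≤ d → Bound d N 1 := by
  have hPL := Run7.h865.MY.t_D_PLANE
      (Run7.h491.MY.t_D_RED (Pool.Agent.Run7.h742.MY.t_D_STEP Run7.h19.MY.t_D_KK
        Run7.h865.MY.t_D_ROT))
      Pool.Agent.Run7.h299.MY.t_DIR Run7.h834.MY.t_CS
  have hCAKE := Run7.h631.MYC.t_D_CAKE Run7.h631.MY.t_D_BALL
  have hLINE := Run7.h459.MY.t_N_LINE (Run7.h216.MY.t_N_DIR Run7.h958.MY.t_N_BATH)
  have main : ∀ d N : ℕ, 2 ≤ d → 1 ≤ N → Bound d N (theta d N) := by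
    intro d N hd hN f G hf hI
    obtain ⟨φ, g, h1, h2⟩ := Pool.Agent.Run7.h670.MY.fin_one hPL Run7.h491.MY.t_D_CS2 hCAKE hLINE
      Run7.h593.MYP.t_N_PHASE Pool.Agent.Run7.h376.MY.t_N_PIT hd hN hf.nonneg hf.integrable
      hf.integral hf.sobolev hI
    refine ⟨fun n => φ n 0, fun n => g n 0, ⟨fun n => h1.sobolev n 0, fun n m => ?_, fun x => ?_⟩,
      ?_⟩
    · have := h1.orthonormal n m
      rwa [Fin.sum_univ_one] at this
    · have := h1.density x
      simpa only [Fin.sum_univ_one] using this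
    · have e : Pool.Agent.Run7.h670.MY.kinetic g = ∑ n, energy (g n 0) := by
        simp only [Pool.Agent.Run7.h670.MY.kinetic, Fin.sum_univ_one, energy]
      rw [e] at h2
      exact h2
  refine ⟨main, fun d N hN hdN f G hf hI => ?_⟩
  have hd : 2 ≤ d := by nlinarith [Nat.one_le_pow 2 N hN]
  obtain ⟨φ, g, h1, h2⟩ := main d N hd hN f G hf hI
  refine ⟨φ, g, h1, h2.trans ?_⟩
  have h3 : theta d N ≤ 1 := Pool.Agent.Run7.h670.MY.thet_le Pool.Agent.Run7.h354.MY.t_N_NUM hN hdN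
  have h4 : 0 ≤ Kcl d * ∫ x, f x ^ (1 + 2 / (d : ℝ)) := by
    refine mul_nonneg ?_ (integral_nonneg fun x => Real.rpow_nonneg (hf.nonneg x) _)
    unfold Kcl
    positivity
  have h5 := mul_le_mul_of_nonneg_right h3 h4
  linarith

end Pool.Agent.Results.MP_ae5e3b_mp.MarchYoungManyParticles
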