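import Pool.Agent.Run7.h670.MY.Two
import Pool.Agent.Run7.h299.MY.DIR
import Pool.Agent.Run7.h175.MY.NC
import Pool.Agent.Run7.h799.MY.BAR
import Pool.Agent.Run7.h834.MY.CS
import Pool.Agent.Run7.h631.MY.DBALL
import Pool.Agent.Run7.h631.MY.DCAKE
import Pool.Agent.Run7.h742.MY.D_COST
import Pool.Agent.Run7.h742.MY.D_STEP
import Pool.Agent.Run7.h491.MY.D_CS2
import Pool.Agent.Run7.h491.MY.D_INT
import Pool.Agent.Run7.h491.MY.D_RED
import Pool.Agent.Run7.h19.MY.DKK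
import Pool.Agent.Run7.h19.MY.DNUM
import Pool.Agent.Run7.h865.MY.D_ROT
import Pool.Agent.Run7.h865.MY.D_PLANE
import Pool.Agent.Run7.h442.MY.DSLAT

/-!
# The March-Young bound for two particles in every dimension

Problem MP_ae5e3b_mp, the case `N = 2`, for every `d ≥ 2` and every admissible `f`: there is an
antisymmetric `Ψ` in `H¹(ℝ^d × ℝ^d)`, normalised, with density `2 f` and
`2^(-1-2/d) ⟨Ψ, (-Δ_x - Δ_y) Ψ⟩ ≤ K_cl ∫ f^(1+2/d) + 2^(-2/d) ∫ |∇√f|²`.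

The space `V d` and the definition `IsSobolev` are in `Pool/Agent/Run7/h670/MY/Defs.lean`.
-/

set_option autoImplicit false

open MeasureTheory Set Filter Topology Real
open scoped ContDiff RealInnerProductSpace ENNReal

namespace Pool.Agent.Results.MP_ae5e3b_mp.MarchYoungTwoAllDim

open Pool.Agent.Run7.h670.MY (V IsSobolev)

variable {d : ℕ}

/-- `f` is admissible: `f ≥ 0`, `∫ f = 1`, and `√f` is in `H¹(ℝ^d)` with weak gradient `G`. -/
structure IsAdmissible (f : V d → ℝ) (G : Fin d → V d → ℂ) : Prop where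
  nonneg : ∀ x, 0 ≤ f x
  integrable : Integrable f
  integral : ∫ x, f x = 1
  sobolev : IsSobolev (fun x => ((√(f x) : ℝ) : ℂ)) G

/-- The derivative of `η` at `z` in the direction `ι e_i`. -/
noncomputable def dir (ι : V d → V d × V d) (i : Fin d) (η : V d × V d → ℝ) (z : V d × V d) : ℝ :=
  fderiv ℝ η z (ι (EuclideanSpace.single i 1))

/-- `g` is in `L²` and is the weak gradient of `Ψ` with respect to the variable `ι`. -/
structure IsGrad (ι : V d → V d × V d) (Ψ : V d × V d → ℂ) (g : Fin d → V d × V d → ℂ) :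
    Prop where
  memLp : ∀ i, MemLp (g i) 2
  weak : ∀ η : V d × V d → ℝ, ContDiff ℝ ∞ η → HasCompactSupport η → ∀ i,
    ∫ z, Ψ z * (dir ι i η z : ℂ) = -∫ z, g i z * (η z : ℂ)

/-- `Ψ` is an antisymmetric normalised two-particle wave function in `H¹(ℝ^d × ℝ^d)`, `g₁` and
`g₂` are its weak gradients in the first and in the second variable, and its one-particle density
`2 ∫ |Ψ(x, y)|² dy` is `ρ`. -/
structure IsWave (ρ : V d → ℝ) (Ψ : V d × V d → ℂ) (g₁ g₂ : Fin d → V d × V d → ℂ) : Prop where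
  antisymm : ∀ x y, Ψ (y, x) = -Ψ (x, y)
  memLp : MemLp Ψ 2
  grad₁ : IsGrad (fun v => (v, 0)) Ψ g₁
  grad₂ : IsGrad (fun v => (0, v)) Ψ g₂
  norm : ∫ z, ‖Ψ z‖ ^ 2 = 1
  density : ∀ x, 2 * ∫ y, ‖Ψ (x, y)‖ ^ 2 = ρ x

/-- The integral `∫ |g|²`. -/
noncomputable def energy {α : Type*} [MeasureSpace α] (g : Fin d → α → ℂ) : ℝ :=
  ∑ i, ∫ z, ‖g i z‖ ^ 2

/-- The semiclassical constant `K_cl = (4π²d/(d+2)) |B₁|^{-2/d}`. -/
noncomputable def Kcl (d : ℕ) : ℝ :=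
  4 * Real.pi ^ 2 * d / (d + 2) *
    (volume.real (Metric.ball (0 : V d) 1)) ^ (-(2 / (d:ℝ)))

/-- The integral `∫ f^(1+2/d)`, possibly infinite. -/
noncomputable def semi (f : V d → ℝ) : ℝ≥0∞ := ∫⁻ x, ENNReal.ofReal (f x ^ (1 + 2 / (d:ℝ)))

/-- **The March-Young bound for two particles.** Let `d ≥ 2`. For every admissible `f` there is an
antisymmetric normalised two-particle wave function `Ψ` with density `2 f` and
`2^(-1-2/d) (∫ |∇_x Ψ|² + ∫ |∇_y Ψ|²) ≤ K_cl ∫ f^(1+2/d) + 2^(-2/d) ∫ |∇√f|²`, where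
`K_cl = (4 π² d / (d + 2)) |B₁|^(-2/d)`. -/
theorem result (d : ℕ) (hd : 2 ≤ d) (f : V d → ℝ) (G : Fin d → V d → ℂ) (hf : IsAdmissible f G) :
    ∃ (Ψ : V d × V d → ℂ) (g₁ g₂ : Fin d → V d × V d → ℂ),
      IsWave (fun x => 2 * f x) Ψ g₁ g₂ ∧
      ENNReal.ofReal ((2:ℝ) ^ (-1 - 2 / (d:ℝ)) * (energy g₁ + energy g₂)) ≤
        ENNReal.ofReal (Kcl d) * semi f +
          ENNReal.ofReal ((2:ℝ) ^ (-(2 / (d:ℝ))) * energy G) := by
  obtain ⟨Ψ, g₁, g₂, h, hk⟩ := Pool.Agent.Run7.h670.MY.pair_state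
    (Pool.Agent.Run7.h799.MY.t_BAR Pool.Agent.Run7.h175.MY.t_NC)
    (Pool.Agent.Run7.h742.MY.t_D_COST Run7.h491.MY.t_D_INT)
    (Run7.h865.MY.t_D_PLANE
      (Run7.h491.MY.t_D_RED (Pool.Agent.Run7.h742.MY.t_D_STEP Run7.h19.MY.t_D_KK
        Run7.h865.MY.t_D_ROT))
      Pool.Agent.Run7.h299.MY.t_DIR Run7.h834.MY.t_CS)
    Run7.h491.MY.t_D_CS2
    (Run7.h631.MYC.t_D_CAKE Run7.h631.MY.t_D_BALL)
    Run7.h19.MY.t_D_NUM Run7.h442.MY.t_D_SLAT hd hf.nonneg hf.integrable hf.integral hf.sobolev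
  refine ⟨fun z => Ψ z.1 z.2, fun i z => g₁ i z.1 z.2, fun i z => g₂ i z.1 z.2,
    ⟨fun x y => h.antisymm x y, h.memLp, ⟨h.memLp₁, h.weak₁⟩, ⟨h.memLp₂, h.weak₂⟩, h.norm,
      h.density⟩, ?_⟩
  rw [Pool.Agent.Run7.h670.MY.kinetic2, Finset.sum_add_distrib] at hk
  exact hk

end Pool.Agent.Results.MP_ae5e3b_mp.MarchYoungTwoAllDim
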